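import Pool.Agent.Helper3.FJ.Main2

/-!
# Groups acting on simply connected complexes with free edges
-/

set_option autoImplicit false

namespace Pool.Agent.Helper3.FE

open Relation Pool.Agent.Helper29.BA Pool.Agent.Helper29.PA Pool.Agent.Helper3.FJ
open Pool.Agent.Helper3.FJ.Cpx

/-- Each nonempty invariant set of triangles with finitely many orbits contains a triangle with an
edge which lies in no other triangle of the set. -/
def HasFree {V : Type} (X : Cpx V) (G : Type) [Group G] [MulAction G V] : Prop :=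
  ∀ T : V → V → V → Prop, (∀ a b c, T a b c → X.tri a b c) →
    (∀ a b c, T a b c → T b c a) → (∀ a b c, T a b c → T b a c) →
    (∀ (g : G) a b c, T a b c → T (g • a) (g • b) (g • c)) →
    (∃ S : Set (V × V × V), S.Finite ∧ ∀ a b c, T a b c → ∃ g : G, (g • a, g • b, g • c) ∈ S) →
    (∃ a b c, T a b c) → ∃ a b c, T a b c ∧ ∀ d, T a b d → d = c

section map

variable {V V' : Type} {X : Cpx V} {X' : Cpx V'} {G G' : Type} [Group G] [MulAction G V]
  [Group G'] [MulAction G' V']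

/-- Free edges for a complex with a locally injective map to `X`. -/
theorem HasFree.of_map (hF : HasFree X G) (hA : X.Acts G) (φ : V' → V) (π : G' →* G)
    (hφ : ∀ (g : G') v, φ (g • v) = π g • φ v)
    (ht : ∀ a b c, X'.tri a b c → X.tri (φ a) (φ b) (φ c))
    (hu : ∀ a b c d, X'.tri a b c → X'.tri a b d → φ c = φ d → c = d) : HasFree X' G' := by
  intro T' h1 h2 h3 h4 h5 h6
  have key := hF
    (fun a b c => ∃ (g : G) (a' b' c' : V'), T' a' b' c' ∧ g • φ a' = a ∧ g • φ b' = b ∧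
      g • φ c' = c) (by
        rintro a b c ⟨g, a', b', c', hT, rfl, rfl, rfl⟩
        exact hA.2 _ _ _ _ (ht _ _ _ (h1 _ _ _ hT))) (by
        rintro a b c ⟨g, a', b', c', hT, e1, e2, e3⟩
        exact ⟨g, b', c', a', h2 _ _ _ hT, e2, e3, e1⟩) (by
        rintro a b c ⟨g, a', b', c', hT, e1, e2, e3⟩
        exact ⟨g, b', a', c', h3 _ _ _ hT, e2, e1, e3⟩) (by
        rintro γ a b c ⟨g, a', b', c', hT, rfl, rfl, rfl⟩
        exact ⟨γ * g, a', b', c', hT, mul_smul _ _ _, mul_smul _ _ _, mul_smul _ _ _⟩) (by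
        obtain ⟨S, hS, hS'⟩ := h5
        refine ⟨(fun t : V' × V' × V' => (φ t.1, φ t.2.1, φ t.2.2)) '' S, hS.image _, ?_⟩
        rintro a b c ⟨g, a', b', c', hT, rfl, rfl, rfl⟩
        obtain ⟨γ, hγ⟩ := hS' _ _ _ hT
        refine ⟨π γ * g⁻¹, _, hγ, ?_⟩
        simp only [hφ, mul_smul, inv_smul_smul]) (by
        obtain ⟨a, b, c, h⟩ := h6
        exact ⟨_, _, _, 1, a, b, c, h, rfl, rfl, rfl⟩)
  obtain ⟨a, b, c, ⟨g, a', b', c', hT, rfl, rfl, rfl⟩, hd⟩ := key
  refine ⟨a', b', c', hT, fun d' hd' => ?_⟩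
  have := hd _ ⟨g, a', b', d', hd', rfl, rfl, rfl⟩
  exact hu _ _ _ _ (h1 _ _ _ hd') (h1 _ _ _ hT) (smul_left_cancel g this)

end map

section del

variable {V : Type} (X : Cpx V) (G : Type) [Group G] [MulAction G V]

/-- `u`, `v` is a translate of `a`, `b` or of `b`, `a`. -/
def Tr (a b u v : V) : Prop := ∃ g : G, (g • a = u ∧ g • b = v) ∨ (g • a = v ∧ g • b = u)

variable {G}

theorem Tr.symm {a b u v : V} (h : Tr G a b u v) : Tr G a b v u := by
  obtain ⟨g, h⟩ := h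
  exact ⟨g, h.symm⟩

theorem Tr.smul {a b u v : V} (h : Tr G a b u v) (γ : G) : Tr G a b (γ • u) (γ • v) := by
  obtain ⟨g, h | h⟩ := h
  · exact ⟨γ * g, Or.inl ⟨by rw [mul_smul, h.1], by rw [mul_smul, h.2]⟩⟩
  · exact ⟨γ * g, Or.inr ⟨by rw [mul_smul, h.1], by rw [mul_smul, h.2]⟩⟩

theorem Tr.of_smul {a b u v : V} {γ : G} (h : Tr G a b (γ • u) (γ • v)) : Tr G a b u v := by
  simpa using h.smul γ⁻¹

variable (G)

/-- The complex without the translates of the edge `a`, `b` and of the triangles containing it. -/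
def del (a b : V) : Cpx V where
  adj u v := X.adj u v ∧ ¬ Tr G a b u v
  tri u v w := X.tri u v w ∧ ¬ Tr G a b u v ∧ ¬ Tr G a b v w ∧ ¬ Tr G a b w u
  adj_symm _ _ h := ⟨X.adj_symm _ _ h.1, fun h' => h.2 h'.symm⟩
  adj_irrefl u h := X.adj_irrefl u h.1
  tri_rot _ _ _ h := ⟨X.tri_rot _ _ _ h.1, h.2.2.1, h.2.2.2, h.2.1⟩
  tri_flip _ _ _ h := ⟨X.tri_flip _ _ _ h.1, fun h' => h.2.1 h'.symm,
    fun h' => h.2.2.2 h'.symm, fun h' => h.2.2.1 h'.symm⟩
  tri_adj _ _ _ h := ⟨X.tri_adj _ _ _ h.1, h.2.1⟩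

variable {G X}

theorem del_acts (hA : X.Acts G) (a b : V) : (del X G a b).Acts G :=
  ⟨fun g _ _ h => ⟨hA.1 g _ _ h.1, fun h' => h.2 h'.of_smul⟩,
    fun g _ _ _ h => ⟨hA.2 g _ _ _ h.1, fun h' => h.2.1 h'.of_smul, fun h' => h.2.2.1 h'.of_smul,
      fun h' => h.2.2.2 h'.of_smul⟩⟩

theorem del_hasFree {a b : V} (hF : HasFree X G) : HasFree (del X G a b) G :=
  fun T h1 h2 h3 h4 h5 h6 => hF T (fun _ _ _ h => (h1 _ _ _ h).1) h2 h3 h4 h5 h6

variable {k : V → ℕ}

theorem tr_rank (hk : ∀ (g : G) v, k (g • v) = k v) {a b u v : V} (h : Tr G a b u v) :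
    (k u = k a ∧ k v = k b) ∨ (k u = k b ∧ k v = k a) := by
  obtain ⟨g, ⟨rfl, rfl⟩ | ⟨rfl, rfl⟩⟩ := h
  · exact Or.inl ⟨hk _ _, hk _ _⟩
  · exact Or.inr ⟨hk _ _, hk _ _⟩

theorem not_tr (hk : ∀ (g : G) v, k (g • v) = k v) (hk' : ∀ u v, X.adj u v → k u ≠ k v)
    {a b u v w : V} (h : X.tri u v w) (hT : Tr G a b u v) : ¬ Tr G a b v w ∧ ¬ Tr G a b w u := by
  have e1 := hk' _ _ (X.tri_adj _ _ _ h)
  have e2 := hk' _ _ (X.tri_adj _ _ _ (X.tri_rot _ _ _ h))
  have e3 := hk' _ _ (X.tri_adj _ _ _ (X.tri_rot _ _ _ (X.tri_rot _ _ _ h)))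
  have r1 := tr_rank hk hT
  refine ⟨fun h' => ?_, fun h' => ?_⟩
  · have r2 := tr_rank hk h'
    omega
  · have r2 := tr_rank hk h'
    omega

variable {a b c : V}

theorem tr_ex (hA : X.Acts G) (h : X.tri a b c) {u v : V} (hT : Tr G a b u v) :
    ∃ w, X.tri u v w := by
  obtain ⟨g, ⟨rfl, rfl⟩ | ⟨rfl, rfl⟩⟩ := hT
  · exact ⟨g • c, hA.2 _ _ _ _ h⟩
  · exact ⟨g • c, hA.2 _ _ _ _ (X.tri_flip _ _ _ h)⟩

theorem tr_un (hA : X.Acts G) (hu : ∀ d, X.tri a b d → d = c) {u v w w' : V}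
    (hT : Tr G a b u v) (h1 : X.tri u v w) (h2 : X.tri u v w') : w = w' := by
  obtain ⟨g, ⟨rfl, rfl⟩ | ⟨rfl, rfl⟩⟩ := hT
  · have e1 := hu (g⁻¹ • w) (by simpa using hA.2 g⁻¹ _ _ _ h1)
    have e2 := hu (g⁻¹ • w') (by simpa using hA.2 g⁻¹ _ _ _ h2)
    exact smul_left_cancel g⁻¹ (e1.trans e2.symm)
  · have e1 := hu (g⁻¹ • w) (by simpa using hA.2 g⁻¹ _ _ _ (X.tri_flip _ _ _ h1))
    have e2 := hu (g⁻¹ • w') (by simpa using hA.2 g⁻¹ _ _ _ (X.tri_flip _ _ _ h2))
    exact smul_left_cancel g⁻¹ (e1.trans e2.symm)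

section ext

variable (X G a b) {H : Type} [Group H] (c' : V → V → H)

open Classical in
/-- The extension of an edge function of the smaller complex. -/
noncomputable def extc (u v : V) : H :=
  if Tr G a b u v then (if h : ∃ w, X.tri u v w then (c' v h.choose * c' h.choose u)⁻¹ else 1)
  else c' u v

variable {X G a b c'}

theorem extc_neg {u v : V} (h : ¬ Tr G a b u v) : extc X G a b c' u v = c' u v := if_neg h

theorem extc_pos (hA : X.Acts G) (hu : ∀ d, X.tri a b d → d = c) {u v w : V}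
    (hT : Tr G a b u v) (h : X.tri u v w) :
    extc X G a b c' u v = (c' v w * c' w u)⁻¹ := by
  have hex : ∃ w, X.tri u v w := ⟨w, h⟩
  rw [extc, if_pos hT, dif_pos hex, tr_un hA hu hT hex.choose_spec h]

theorem extc_cocycle (hA : X.Acts G) (hk : ∀ (g : G) v, k (g • v) = k v)
    (hk' : ∀ u v, X.adj u v → k u ≠ k v) (h : X.tri a b c) (hu : ∀ d, X.tri a b d → d = c)
    (hc : (del X G a b).Cocycle c') : X.Cocycle (extc X G a b c') := by
  have key : ∀ u v w, X.tri u v w → Tr G a b u v →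
      extc X G a b c' u v * extc X G a b c' v w * extc X G a b c' w u = 1 := by
    intro u v w ht hT
    obtain ⟨n1, n2⟩ := not_tr hk hk' ht hT
    rw [extc_pos hA hu hT ht, extc_neg n1, extc_neg n2]
    group
  refine ⟨fun u v huv => ?_, fun u v w ht => ?_⟩
  · by_cases hT : Tr G a b u v
    · obtain ⟨w, hw⟩ := tr_ex hA h hT
      obtain ⟨n1, n2⟩ := not_tr hk hk' hw hT
      have e1 := hc.1 v w ⟨X.tri_adj _ _ _ (X.tri_rot _ _ _ hw), n1⟩
      have e2 := hc.1 w u ⟨X.tri_adj _ _ _ (X.tri_rot _ _ _ (X.tri_rot _ _ _ hw)), n2⟩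
      rw [extc_pos hA hu hT hw, extc_pos hA hu hT.symm (X.tri_flip _ _ _ hw)]
      have e3 : c' u w = (c' w u)⁻¹ := eq_inv_of_mul_eq_one_right e2
      have e4 : c' w v = (c' v w)⁻¹ := eq_inv_of_mul_eq_one_right e1
      rw [e3, e4]
      group
    · rw [extc_neg hT, extc_neg fun h' => hT h'.symm]
      exact hc.1 _ _ ⟨huv, hT⟩
  · by_cases h1 : Tr G a b u v
    · exact key _ _ _ ht h1
    · by_cases h2 : Tr G a b v w
      · have := key _ _ _ (X.tri_rot _ _ _ ht) h2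
        rw [mul_assoc, mul_eq_one_iff_eq_inv] at this
        rw [mul_assoc, this]
        group
      · by_cases h3 : Tr G a b w u
        · have := key _ _ _ (X.tri_rot _ _ _ (X.tri_rot _ _ _ ht)) h3
          rw [mul_assoc, mul_eq_one_iff_eq_inv] at this
          rw [this]
          group
        · rw [extc_neg h1, extc_neg h2, extc_neg h3]
          exact hc.2 _ _ _ ⟨ht, h1, h2, h3⟩

end ext

/-- Collapsing through the translates of a free edge. -/
theorem del_simplyConn (hX : X.SimplyConn) (hA : X.Acts G) (hk : ∀ (g : G) v, k (g • v) = k v)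
    (hk' : ∀ u v, X.adj u v → k u ≠ k v) (h : X.tri a b c) (hu : ∀ d, X.tri a b d → d = c) :
    (del X G a b).SimplyConn := by
  refine ⟨hX.1, fun u v => ?_, fun H _ c' hc => ?_⟩
  · have h1 := hX.2.1 u v
    induction h1 with
    | refl => exact ReflTransGen.refl
    | @tail y z _ hyz ih =>
      by_cases hT : Tr G a b y z
      · obtain ⟨w, hw⟩ := tr_ex hA h hT
        obtain ⟨n1, n2⟩ := not_tr hk hk' hw hT
        have hwy := X.tri_adj _ _ _ (X.tri_rot _ _ _ (X.tri_rot _ _ _ hw))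
        have hzw := X.tri_adj _ _ _ (X.tri_rot _ _ _ hw)
        exact (ih.tail ⟨X.adj_symm _ _ hwy, fun h' => n2 h'.symm⟩).tail
          ⟨X.adj_symm _ _ hzw, fun h' => n1 h'.symm⟩
      · exact ih.tail ⟨hyz, hT⟩
  · obtain ⟨g, hg⟩ := hX.2.2 H _ (extc_cocycle hA hk hk' h hu hc)
    refine ⟨g, fun u v huv => ?_⟩
    rw [← hg u v huv.1, extc_neg huv.2]

/-- The set of the orbits of triangles. -/
def orbs (X : Cpx V) (G : Type) [Group G] [MulAction G V] : Set (Set (V × V × V)) :=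
  (fun t => MulAction.orbit G t) '' {t : V × V × V | X.tri t.1 t.2.1 t.2.2}

theorem exists_collapse : ∀ (n : ℕ) (Y : Cpx V), Y.SimplyConn → Y.Acts G →
    (∀ u v, Y.adj u v → k u ≠ k v) → HasFree Y G →
    (∃ S : Set (V × V × V), S.Finite ∧ ∀ a b c, Y.tri a b c →
      ∃ g : G, (g • a, g • b, g • c) ∈ S) →
    (∀ (g : G) v, k (g • v) = k v) → (orbs Y G).ncard = n →
    ∃ Z : Cpx V, Z.SimplyConn ∧ Z.Acts G ∧ (∀ u v w, ¬ Z.tri u v w) ∧
      ∀ u v, Z.adj u v → Y.adj u v := by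
  intro n
  induction n using Nat.strong_induction_on with
  | _ n ih =>
    intro Y hY hA hk' hF hfin hk hn
    by_cases hex : ∃ a b c, Y.tri a b c
    · obtain ⟨a, b, c, habc, hu⟩ := hF Y.tri (fun _ _ _ h => h) (fun _ _ _ h => Y.tri_rot _ _ _ h)
        (fun _ _ _ h => Y.tri_flip _ _ _ h) (fun g _ _ _ h => hA.2 g _ _ _ h) hfin hex
      have hOfin : (orbs Y G).Finite := by
        obtain ⟨S, hS, hS'⟩ := hfin
        refine (hS.image (fun t => MulAction.orbit G t)).subset ?_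
        rintro _ ⟨⟨a, b, c⟩, ht, rfl⟩
        obtain ⟨g, hg⟩ := hS' _ _ _ ht
        exact ⟨_, hg, MulAction.orbit_eq_iff.2 ⟨g, rfl⟩⟩
      have hlt : (orbs (del Y G a b) G).ncard < n := by
        rw [← hn]
        refine Set.ncard_lt_ncard ?_ hOfin
        refine (Set.ssubset_iff_of_subset ?_).2 ⟨MulAction.orbit G (a, b, c), ⟨_, habc, rfl⟩, ?_⟩
        · rintro _ ⟨t, ht, rfl⟩
          exact ⟨t, ht.1, rfl⟩
        · rintro ⟨t, ht, he⟩
          obtain ⟨g, hg⟩ := MulAction.orbit_eq_iff.1 he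
          refine ht.2.1 ⟨g, Or.inl ⟨?_, ?_⟩⟩
          · rw [← hg]
            rfl
          · rw [← hg]
            rfl
      obtain ⟨Z, h1, h2, h3, h4⟩ := ih _ hlt (del Y G a b)
        (del_simplyConn hY hA hk hk' habc hu) (del_acts hA a b) (fun u v h => hk' u v h.1)
        (del_hasFree hF) (by
          obtain ⟨S, hS, hS'⟩ := hfin
          exact ⟨S, hS, fun a b c h => hS' _ _ _ h.1⟩) hk rfl
      exact ⟨Z, h1, h2, h3, fun u v h => (h4 u v h).1⟩
    · push Not at hex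
      exact ⟨Y, hY, hA, hex, fun _ _ h => h⟩

end del

section main

variable {V : Type} {X : Cpx V} {G : Type} [Group G] [MulAction G V] {k : V → ℕ}

/-- Groups acting with finitely many orbits of triangles on simply connected complexes with free
edges. -/
theorem mem_of_fin {C : ∀ (G : Type) [Group G], Prop} (hC : ExtClass C) (hX : X.SimplyConn)
    (hA : X.Acts G) (hk : ∀ (g : G) v, k (g • v) = k v) (hk' : ∀ u v, X.adj u v → k u ≠ k v)
    (hF : HasFree X G)
    (hfin : ∃ S : Set (V × V × V), S.Finite ∧ ∀ a b c, X.tri a b c →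
      ∃ g : G, (g • a, g • b, g • c) ∈ S)
    (hQ : ∀ K : Finset V, ∃ (Q : Type) (_ : Group Q) (f : G →* Q), C Q ∧
      ∀ v ∈ K, ∀ g : G, g • v = v → f g = 1 → g = 1) : C G := by
  obtain ⟨Z, h1, h2, h3, h4⟩ := exists_collapse _ X hX hA hk' hF hfin hk rfl
  refine tree hC Z h1 h3 h2.1 (fun g u v huv e1 e2 => ?_) hQ
  have := hk' u v (h4 u v huv)
  rw [← e1, hk] at this
  exact this rfl

/-- Groups acting on simply connected complexes with free edges. -/
theorem mem_of_free {C : ∀ (G : Type) [Group G], Prop} (hC : ExtClass C) (hX : X.SimplyConn)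
    (hA : X.Acts G) (hk : ∀ (g : G) v, k (g • v) = k v) (hk' : ∀ u v, X.adj u v → k u ≠ k v)
    (hF : HasFree X G)
    (hQ : ∀ K : Finset V, ∃ (Q : Type) (_ : Group Q) (f : G →* Q), C Q ∧
      ∀ v ∈ K, ∀ g : G, g • v = v → f g = 1 → g = 1) : C G := by
  classical
  refine of_fg hC.toClosedClass hA fun T S hS hAT => ?_
  refine colim_gen hC.toClosedClass hAT hX S hS fun v₀ s hv₀ => ?_
  refine mem_of_fin (X := cover (X.sb T s) v₀) (k := fun p => k p.1.1) hC cover_simplyConn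
    (cover_acts (sb_acts hAT s)) (fun g p => ?_) (fun p q h => hk' _ _ h.1.1) ?_ ?_ fun K => ?_
  · exact hk g.1.right.1 p.1.1
  · refine HasFree.of_map hF hA (fun p => p.1.1) (T.subtype.comp (prG v₀ (sb_acts hAT s)))
      (fun g p => rfl) (fun a b c h => h.1.1) (fun a b c d h h' he => ?_)
    refine Cv.ext he ?_
    have he' : c.1.1 = d.1.1 := he
    rw [h.2.2, h'.2.2, he']
  · obtain ⟨S', hS', -, -, h3⟩ := cover_cocompact (sb_acts hAT s) (v₀ := v₀) s hv₀
      (fun u v h => h.2) (fun u v w h => h.2)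
    exact ⟨S', hS', h3⟩
  · obtain ⟨Q, _, f, hCQ, hf⟩ := hQ (K.image fun p => p.1.1)
    refine ⟨Q, _, (f.comp T.subtype).comp (prG v₀ (sb_acts hAT s)), hCQ, fun p hp x hx h1 => ?_⟩
    refine cover_inj (f.comp T.subtype) x p hx h1 fun g hg h2 => ?_
    exact Subtype.ext (hf p.1.1 (Finset.mem_image_of_mem _ hp) g.1 hg h2)

end main

end Pool.Agent.Helper3.FE
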