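import Pool.Agent.Helper3.FE.Ht
import Pool.Agent.Helper9.TD.Defs

/-!
# The free edge theorem
-/

set_option autoImplicit false

namespace Pool.Agent.Helper3.FE

open Real Pool.Agent.Helper9.TD

section

variable {S C : Type} {M : CoxeterMatrix S} {A : S → C → C → Prop} {F : S → C → Prop}

/-- `A s` without the diagonal. -/
def An (A : S → C → C → Prop) (s : S) (c d : C) : Prop := A s c d ∧ c ≠ d

theorem arm_al {x y : S} {n : ℕ} {c : C} (h : Arm (An A) F x y n c) :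
    ∃ d, Al A x y n c d ∧ F (tp x y n) d := by
  induction n generalizing x y c with
  | zero => exact ⟨c, Al.nil _ _ _, h⟩
  | succ n ih =>
    obtain ⟨c', ⟨h1, h2⟩, h3⟩ := h
    obtain ⟨d, h4, h5⟩ := ih h3
    exact ⟨d, Al.cons h1 h2 h4, h5⟩

theorem arm_rev (hA : ∀ s, Equivalence (A s)) {x y : S} {a : ℕ} {c : C}
    (h : Arm (An A) F x y a c) : ∀ {n : ℕ} {d : C}, Al A y x n c d → F (tp y x n) d →
      ∃ s t e, ((s = x ∧ t = y) ∨ (s = y ∧ t = x)) ∧ Al A s t (n + a) e d ∧ F t e ∧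
        F (tp s t (n + a)) d := by
  induction a generalizing x y c with
  | zero =>
    intro n d h1 h2
    exact ⟨y, x, c, Or.inr ⟨rfl, rfl⟩, h1, h, h2⟩
  | succ a ih =>
    intro n d h1 h2
    obtain ⟨c', ⟨h3, h4⟩, h5⟩ := h
    obtain ⟨s, t, e, h6, h7, h8, h9⟩ := ih h5 (n := n + 1) (d := d)
      (Al.cons ((hA x).symm h3) h4.symm h1) h2
    refine ⟨s, t, e, h6.symm, ?_, h8, ?_⟩
    · rw [show n + (a + 1) = n + 1 + a by ring]
      exact h7
    · rw [show n + (a + 1) = n + 1 + a by ring]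
      exact h9

/-- **The free edge theorem.** -/
theorem free_edge {lam : M.Group → S → ℝ} {ph : M.Group → ℝ} {w : C → M.Group}
    (hA : ∀ s, Equivalence (A s)) (hC : CoxF M) (hH : HtF M lam ph) (hw : WL M A w)
    (hF : FixF M A F) : FE M A F := by
  intro K hfin hne K1 K0
  by_contra hcon
  push Not at hcon
  obtain ⟨⟨c, s, t⟩, hc⟩ := hne
  have hHt : Ht M M.simple lam ph := by
    refine ⟨fun w s t => ?_, hH.ph_mul, fun w s => ?_, ?_, ?_⟩
    · rw [hH.lam_mul, bf]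
      ring
    · by_cases hd : Ds M w s
      · exact ((hH.neg w s).2 hd).ne
      · exact ((hH.pos w s).2 hd).ne'
    · intro w s t u h1 h2 h3 _ _ h4
      exact hC.three w s t u h1 h3 h2 ((hH.neg _ _).1 h4.1) ((hH.neg _ _).1 h4.2.1)
        ((hH.neg _ _).1 h4.2.2)
    · intro w s t u h1 h2 h3 h4 h5 h6
      refine hH.kap w s t u h1 h3 h2 h4 h5 ?_
      rw [bf, bf]
      exact ⟨by linarith [h6.1], by linarith [h6.2]⟩
  refine no_kites hHt w (An A) F (fun c s t => (c, s, t) ∈ K) ?_ (fun c s t h => K0 c s t h)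
    (fun c s t h => K1 c s t h) ?_ ?_ ?_ ?_ c s t hc
  · rintro s c d ⟨h1, h2⟩
    rcases hw s c d h1 h2 with h | h
    · exact Or.inl h
    · exact Or.inr ⟨h.1, (hH.neg _ _).2 h.2⟩
  · intro c s t h
    obtain ⟨u, h1, h2⟩ := (hcon c s t h).1
    exact ⟨u, h2, h1⟩
  · intro c s t h
    by_cases hFs : F s c
    · exact Or.inl hFs
    · obtain ⟨d, h1, h2, h3⟩ := (hcon c s t h).2 hFs
      exact Or.inr ⟨d, ⟨h1, fun h4 => h3 h4.symm⟩, h2⟩
  · refine (hfin.image fun p => (w p.1, p.2.1, p.2.2)).subset ?_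
    rintro ⟨v, s, t⟩ ⟨c, h1, h2⟩
    exact ⟨(c, s, t), h1, Prod.ext h2 rfl⟩
  · intro x y a b c hxy h0 ha hb
    obtain ⟨d, h1, h2⟩ := arm_al hb
    obtain ⟨s, t, e, h3, h4, h5, h6⟩ := arm_rev hA ha h1 h2
    have h7 : s ≠ t ∧ M s t = M x y := by
      rcases h3 with ⟨rfl, rfl⟩ | ⟨rfl, rfl⟩
      · exact ⟨hxy, rfl⟩
      · exact ⟨hxy.symm, M.symmetric _ _⟩
    have h8 := hF.far s t (b + a) e d h7.1 (by rw [h7.2]; exact h0) h4 h5 h6
    rw [h7.2] at h8
    omega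

end

end Pool.Agent.Helper3.FE
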