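import Mathlib

/-!
# Heights on chamber complexes of dimension two and sets of kites without free edges
-/

set_option autoImplicit false

namespace Pool.Agent.Helper3.FE

open Real

/-- Values of roots and heights: `va w s` is the value of a positive functional at the root
`w a_s`, `h w` the height of the chamber `w`. -/
structure Ht {S W : Type} [Group W] (M : CoxeterMatrix S) (σ : S → W) (va : W → S → ℝ)
    (h : W → ℝ) : Prop where
  step : ∀ w s t, va (w * σ s) t = va w t + 2 * cos (π / M s t) * va w s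
  hst : ∀ w s, h (w * σ s) = h w + va w s
  ne : ∀ w s, va w s ≠ 0
  three : ∀ w s t u, s ≠ t → s ≠ u → t ≠ u → M s t ≠ 0 → M s u ≠ 0 →
    ¬ (va w s < 0 ∧ va w t < 0 ∧ va w u < 0)
  kap : ∀ w s t u, s ≠ t → s ≠ u → t ≠ u → M s t ≠ 0 → M s u ≠ 0 →
    ¬ (va w t + cos (π / M s t) * va w s ≤ 0 ∧ va w u + cos (π / M s u) * va w s ≤ 0)

/-- There is an alternating gallery from `c` with `n` steps, the first one of type `x`, and the
next panel of its last chamber is fixed. -/
def Arm {S Ch : Type} (adj : S → Ch → Ch → Prop) (Fix : S → Ch → Prop) :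
    S → S → ℕ → Ch → Prop
  | x, _, 0, c => Fix x c
  | x, y, n + 1, c => ∃ c', adj x c c' ∧ Arm adj Fix y x n c'

section trig

variable {m : ℕ}

theorem th_pos (hm : 2 ≤ m) : 0 < π / m := by
  have : (0 : ℝ) < m := by
    have : 0 < m := by omega
    exact_mod_cast this
  exact div_pos pi_pos this

theorem th_mul (hm : 2 ≤ m) : (m : ℝ) * (π / m) = π := by
  have : (m : ℝ) ≠ 0 := by
    have : 0 < m := by omega
    positivity
  field_simp

theorem th_le (hm : 2 ≤ m) : π / m ≤ π / 2 := by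
  have h2 : (2 : ℝ) ≤ m := by exact_mod_cast hm
  exact div_le_div_of_nonneg_left pi_pos.le (by norm_num) h2

theorem cos_th (hm : 2 ≤ m) : 0 ≤ cos (π / m) :=
  cos_nonneg_of_mem_Icc ⟨by linarith [th_pos hm, pi_pos], th_le hm⟩

theorem cos_th_lt (hm : 2 ≤ m) : cos (π / m) < 1 := by
  rw [← cos_zero]
  exact cos_lt_cos_of_nonneg_of_le_pi le_rfl (by linarith [th_le hm, pi_pos]) (th_pos hm)

theorem sin_th (hm : 2 ≤ m) : 0 < sin (π / m) :=
  sin_pos_of_pos_of_lt_pi (th_pos hm) (by linarith [th_le hm, pi_pos])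

theorem mul_th_le (hm : 2 ≤ m) {n : ℕ} (hn : n ≤ m) : (n : ℝ) * (π / m) ≤ π := by
  have : (n : ℝ) ≤ m := by exact_mod_cast hn
  calc (n : ℝ) * (π / m) ≤ (m : ℝ) * (π / m) :=
        mul_le_mul_of_nonneg_right this (th_pos hm).le
    _ = π := th_mul hm

/-- The two arms at the lowest chamber. -/
theorem trigA (hm : 2 ≤ m) {n n' : ℕ} (hn : n < m) (hn' : n' < m) {a b : ℝ}
    (ha : 0 < a) (hb : 0 < b)
    (h1 : 0 < cos ((n + 1) * (π / m)) * b + cos (n * (π / m)) * a)
    (h2 : 0 < cos ((n' + 1) * (π / m)) * a + cos (n' * (π / m)) * b) : n + n' + 1 < m := by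
  by_contra hcon
  have hcon' : m ≤ n + n' + 1 := by omega
  have hθ := th_pos hm
  have e := th_mul hm
  have hc : (m : ℝ) ≤ n + n' + 1 := by exact_mod_cast hcon'
  have hle : π ≤ ((n : ℝ) + n' + 1) * (π / m) := by
    calc π = (m : ℝ) * (π / m) := e.symm
      _ ≤ _ := mul_le_mul_of_nonneg_right hc hθ.le
  have k1 : ((n : ℝ) + 1) * (π / m) ≤ π := by
    have := mul_th_le hm (n := n + 1) hn
    push_cast at this
    exact this
  have k2 : ((n' : ℝ) + 1) * (π / m) ≤ π := by
    have := mul_th_le hm (n := n' + 1) hn'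
    push_cast at this
    exact this
  have k3 : cos (((n : ℝ) + 1) * (π / m)) ≤ - cos (n' * (π / m)) := by
    rw [← cos_pi_sub]
    refine cos_le_cos_of_nonneg_of_le_pi ?_ k1 ?_
    · linarith [hθ]
    · linarith
  have k4 : cos ((n : ℝ) * (π / m)) ≤ - cos ((n' + 1) * (π / m)) := by
    rw [← cos_pi_sub]
    refine cos_le_cos_of_nonneg_of_le_pi ?_ ?_ ?_
    · linarith
    · linarith
    · linarith
  nlinarith [mul_le_mul_of_nonneg_right k3 hb.le, mul_le_mul_of_nonneg_right k4 ha.le]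

/-- One arm at a lower panel. -/
theorem trigB (hm : 2 ≤ m) {n : ℕ} (hn : n < m) {a b : ℝ} (ha : 0 < a) (hb : 0 < b)
    (hab : a ≤ cos (π / m) * b)
    (h1 : 0 < cos ((n + 1) * (π / m)) * b - cos (n * (π / m)) * a) : 2 * (n + 1) < m := by
  by_contra hcon
  have hcon' : m ≤ 2 * (n + 1) := by omega
  have hθ := th_pos hm
  have e := th_mul hm
  have hc : (m : ℝ) ≤ 2 * (n + 1) := by exact_mod_cast hcon'
  have hle : π ≤ 2 * (n + 1) * (π / m) := by
    calc π = (m : ℝ) * (π / m) := e.symm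
      _ ≤ _ := mul_le_mul_of_nonneg_right hc hθ.le
  have k1 : ((n : ℝ) + 1) * (π / m) ≤ π := by
    have := mul_th_le hm (n := n + 1) hn
    push_cast at this
    exact this
  have k2 : cos (((n : ℝ) + 1) * (π / m)) ≤ 0 := by
    refine cos_nonpos_of_pi_div_two_le_of_le ?_ ?_
    · linarith
    · linarith [pi_pos]
  rcases le_or_gt 0 (cos ((n : ℝ) * (π / m))) with h0 | h0
  · nlinarith [mul_nonneg h0 ha.le, mul_nonneg (neg_nonneg.2 k2) hb.le]
  · have k3 : cos (((n : ℝ) + 1) * (π / m)) =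
        cos (n * (π / m)) * cos (π / m) - sin (n * (π / m)) * sin (π / m) := by
      rw [← cos_add]
      congr 1
      ring
    have k4 : 0 ≤ sin ((n : ℝ) * (π / m)) := by
      refine sin_nonneg_of_nonneg_of_le_pi ?_ ?_
      · positivity
      · exact mul_th_le hm hn.le
    have k5 : -cos ((n : ℝ) * (π / m)) * a ≤ -cos ((n : ℝ) * (π / m)) * (cos (π / m) * b) :=
      mul_le_mul_of_nonneg_left hab (by linarith)
    have k6 := mul_nonneg (mul_nonneg k4 (sin_th hm).le) hb.le
    rw [k3] at h1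
    nlinarith

end trig

section main

variable {S W Ch : Type} [Group W] {M : CoxeterMatrix S} {σ : S → W} {va : W → S → ℝ} {h : W → ℝ}
  (hH : Ht M σ va h)

theorem two_le {s t : S} (hst : s ≠ t) (h0 : M s t ≠ 0) : 2 ≤ M s t := by
  have := M.off_diagonal s t hst
  omega

variable (M va h) in
/-- The height of a panel. -/
noncomputable def p1 (w : W) (s : S) : ℝ := h w + va w s / 2

variable (M va h) in
/-- The height of a residue. -/
noncomputable def p2 (w : W) (s t : S) : ℝ :=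
  h w + (va w s + va w t) / (2 * (1 - cos (π / M s t)))

include hH

theorem va_self (w : W) (s : S) : va (w * σ s) s = - va w s := by
  rw [hH.step, M.diagonal]
  simp
  ring

theorem p2_comm (w : W) (s t : S) : p2 M va h w s t = p2 M va h w t s := by
  rw [p2, p2, M.symmetric s t, add_comm (va w s)]

theorem p2_mul {s t : S} (hst : s ≠ t) (h0 : M s t ≠ 0) (w : W) :
    p2 M va h (w * σ s) s t = p2 M va h w s t := by
  have hm := two_le hst h0
  have hc := cos_th_lt hm
  rw [p2, p2, va_self hH, hH.hst, hH.step]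
  generalize cos (π / M s t) = x at hc
  have : 1 - x ≠ 0 := by
    have : 0 < 1 - x := by linarith
    positivity
  field_simp
  ring

theorem p2_sub {s t : S} (hst : s ≠ t) (h0 : M s t ≠ 0) (w : W) :
    p2 M va h w s t - p1 va h w s =
      (va w t + cos (π / M s t) * va w s) / (2 * (1 - cos (π / M s t))) := by
  have hm := two_le hst h0
  have hc := cos_th_lt hm
  rw [p2, p1]
  generalize cos (π / M s t) = x at hc
  have : 1 - x ≠ 0 := by
    have : 0 < 1 - x := by linarith
    positivity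
  field_simp
  ring

theorem p2_lt {s t : S} (hst : s ≠ t) (h0 : M s t ≠ 0) {w : W}
    (hlt : p1 va h w s < p2 M va h w s t) : 0 < va w t + cos (π / M s t) * va w s := by
  have hm := two_le hst h0
  have hc := cos_th_lt hm
  have h1 := p2_sub hH hst h0 w
  have h2 : 0 < (va w t + cos (π / M s t) * va w s) / (2 * (1 - cos (π / M s t))) := by
    rw [← h1]
    linarith
  have h3 : 0 < 2 * (1 - cos (π / M s t)) := by linarith
  exact (div_pos_iff_of_pos_right h3).1 h2

theorem p2_le {s t : S} (hst : s ≠ t) (h0 : M s t ≠ 0) {w : W}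
    (hle : p2 M va h w s t ≤ p1 va h w s) : va w t + cos (π / M s t) * va w s ≤ 0 := by
  have hm := two_le hst h0
  have hc := cos_th_lt hm
  have h1 := p2_sub hH hst h0 w
  by_contra hcon
  push Not at hcon
  have h3 : 0 < 2 * (1 - cos (π / M s t)) := by linarith
  have h2 := div_pos hcon h3
  rw [← h1] at h2
  linarith

variable (w : Ch → W) (adj : S → Ch → Ch → Prop) (Fix : S → Ch → Prop) (K : Ch → S → S → Prop)
  (hw : ∀ s c c', adj s c c' → w c' = w c * σ s ∨ (w c' = w c ∧ va (w c) s < 0))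
  (K0 : ∀ c s t, K c s t → s ≠ t ∧ M s t ≠ 0) (K1 : ∀ c s t, K c s t → K c t s)
  (K2 : ∀ c s t, K c s t → ∃ u, u ≠ t ∧ K c s u)
  (K3 : ∀ c s t, K c s t → Fix s c ∨ ∃ c', adj s c c' ∧ K c' s t)

include K0 K1 K3 hw in
/-- Arms exist. -/
theorem exists_arm (mx : ℝ) (hmx : ∀ c s t, K c s t → p1 va h (w c) s < mx) (N : ℕ) :
    ∀ d x y, K d x y → p2 M va h (w d) x y = mx → 0 < va (w d) x →
      cos ((N + 1) * (π / M x y)) * va (w d) x + cos (N * (π / M x y)) * va (w d) y ≤ 0 →
      ∃ n < N, Arm adj Fix x y n d ∧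
        0 < cos ((n + 1) * (π / M x y)) * va (w d) x + cos (n * (π / M x y)) * va (w d) y := by
  have hcond : ∀ d x y, K d x y → p2 M va h (w d) x y = mx →
      0 < va (w d) y + cos (π / M x y) * va (w d) x := by
    intro d x y hK hp
    obtain ⟨h1, h2⟩ := K0 _ _ _ hK
    refine p2_lt hH h1 h2 ?_
    rw [hp]
    exact hmx _ _ _ hK
  induction N with
  | zero =>
    intro d x y hK hp hx hN
    have := hcond d x y hK hp
    simp only [Nat.cast_zero, zero_add, one_mul, zero_mul, cos_zero] at hN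
    linarith
  | succ N ih =>
    intro d x y hK hp hx hN
    obtain ⟨hxy, h0⟩ := K0 _ _ _ hK
    rcases K3 _ _ _ hK with hF | ⟨d', hd', hK'⟩
    · refine ⟨0, Nat.succ_pos _, hF, ?_⟩
      have := hcond d x y hK hp
      simp only [Nat.cast_zero, zero_add, one_mul, zero_mul, cos_zero]
      linarith
    · have hwd : w d' = w d * σ x := by
        rcases hw _ _ _ hd' with h1 | ⟨-, h2⟩
        · exact h1
        · linarith
      have e1 : va (w d') x = - va (w d) x := by rw [hwd, va_self hH]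
      have e2 : va (w d') y = va (w d) y + 2 * cos (π / M x y) * va (w d) x := by
        rw [hwd, hH.step]
      have hsym : M y x = M x y := M.symmetric y x
      have key : ∀ n : ℕ, cos ((n + 1) * (π / M y x)) * va (w d') y +
          cos (n * (π / M y x)) * va (w d') x =
          cos (((n + 1 : ℕ) + 1) * (π / M x y)) * va (w d) x +
            cos ((n + 1 : ℕ) * (π / M x y)) * va (w d) y := by
        intro n
        rw [hsym, e1, e2]
        push_cast
        have k1 : cos (((n : ℝ) + 1 + 1) * (π / M x y)) =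
            2 * cos (π / M x y) * cos (((n : ℝ) + 1) * (π / M x y)) -
              cos ((n : ℝ) * (π / M x y)) := by
          have a1 : ((n : ℝ) + 1 + 1) * (π / M x y) = ((n : ℝ) + 1) * (π / M x y) + π / M x y := by
            ring
          have a2 : (n : ℝ) * (π / M x y) = ((n : ℝ) + 1) * (π / M x y) - π / M x y := by
            ring
          rw [a1, a2, cos_add, cos_sub]
          ring
        rw [k1]
        ring
      have hc' := hcond d x y hK hp
      have hc := cos_th (two_le hxy h0)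
      have hy : 0 < va (w d') y := by
        rw [e2]
        nlinarith [mul_nonneg hc hx.le]
      have hp' : p2 M va h (w d') y x = mx := by
        rw [p2_comm hH, hwd, p2_mul hH hxy h0, hp]
      obtain ⟨n, hn, harm, hpos⟩ := ih d' y x (K1 _ _ _ hK') hp' hy (by rw [key]; exact hN)
      refine ⟨n + 1, Nat.succ_lt_succ hn, ⟨d', hd', harm⟩, ?_⟩
      rw [key] at hpos
      exact hpos

include hw K0 K1 K2 K3 in
/-- **Free edges.** -/
theorem no_kites (hfin : {p : W × S × S | ∃ c, K c p.2.1 p.2.2 ∧ w c = p.1}.Finite)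
    (FF : ∀ x y a b c, x ≠ y → M x y ≠ 0 → Arm adj Fix x y a c → Arm adj Fix y x b c →
      M x y ≤ a + b + 1) (c : Ch) (s t : S) : ¬ K c s t := by
  classical
  intro hK
  -- the maximal height
  let F := hfin.toFinset
  have hF : ∀ c s t, K c s t → (w c, s, t) ∈ F := fun c s t hK =>
    hfin.mem_toFinset.2 ⟨c, hK, rfl⟩
  let A : Finset ℝ := F.image (fun p => h p.1) ∪ (F.image (fun p => p1 va h p.1 p.2.1) ∪
    F.image (fun p => p2 M va h p.1 p.2.1 p.2.2))
  have hAne : A.Nonempty := ⟨h (w c), by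
    simp only [A, Finset.mem_union, Finset.mem_image]
    exact Or.inl ⟨_, hF _ _ _ hK, rfl⟩⟩
  obtain ⟨mx, hmx⟩ : ∃ mx, mx = A.max' hAne := ⟨_, rfl⟩
  have hle : ∀ x ∈ A, x ≤ mx := fun x hx => hmx ▸ A.le_max' x hx
  have hmem : mx ∈ A := hmx ▸ A.max'_mem hAne
  have l0 : ∀ c s t, K c s t → h (w c) ≤ mx := fun c s t hK => hle _ (by
    simp only [A, Finset.mem_union, Finset.mem_image]
    exact Or.inl ⟨_, hF _ _ _ hK, rfl⟩)
  have l1 : ∀ c s t, K c s t → p1 va h (w c) s ≤ mx := fun c s t hK => hle _ (by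
    simp only [A, Finset.mem_union, Finset.mem_image]
    exact Or.inr (Or.inl ⟨_, hF _ _ _ hK, rfl⟩))
  have l2 : ∀ c s t, K c s t → p2 M va h (w c) s t ≤ mx := fun c s t hK => hle _ (by
    simp only [A, Finset.mem_union, Finset.mem_image]
    exact Or.inr (Or.inr ⟨_, hF _ _ _ hK, rfl⟩))
  by_cases hpan : ∃ c s t, K c s t ∧ p1 va h (w c) s = mx
  · -- a panel is highest
    obtain ⟨c, s, t, hK, hp⟩ := hpan
    obtain ⟨u, hut, hKu⟩ := K2 _ _ _ hK
    obtain ⟨hst, h0⟩ := K0 _ _ _ hK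
    obtain ⟨hsu, h0'⟩ := K0 _ _ _ hKu
    have e1 := p2_le hH hst h0 (w := w c) (by rw [hp]; exact l2 _ _ _ hK)
    have e2 := p2_le hH hsu h0' (w := w c) (by rw [hp]; exact l2 _ _ _ hKu)
    exact hH.kap (w c) s t u hst hsu hut.symm h0 h0' ⟨e1, e2⟩
  push Not at hpan
  have l1' : ∀ c s t, K c s t → p1 va h (w c) s < mx := fun c s t hK =>
    lt_of_le_of_ne (l1 _ _ _ hK) (hpan _ _ _ hK)
  by_cases hch : ∃ c s t, K c s t ∧ h (w c) = mx
  · -- a chamber is highest
    obtain ⟨c, s, t, hK, hp⟩ := hch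
    obtain ⟨u, hut, hKu⟩ := K2 _ _ _ hK
    obtain ⟨hst, h0⟩ := K0 _ _ _ hK
    obtain ⟨hsu, h0'⟩ := K0 _ _ _ hKu
    have e1 := l1 _ _ _ hK
    have e2 := l1 _ _ _ (K1 _ _ _ hK)
    have e3 := l1 _ _ _ (K1 _ _ _ hKu)
    rw [p1] at e1 e2 e3
    have d1 : va (w c) s ≤ 0 := by linarith
    have d2 : va (w c) t ≤ 0 := by linarith
    have d3 : va (w c) u ≤ 0 := by linarith
    exact hH.three (w c) s t u hst hsu hut.symm h0 h0' ⟨lt_of_le_of_ne d1 (hH.ne _ _),
      lt_of_le_of_ne d2 (hH.ne _ _), lt_of_le_of_ne d3 (hH.ne _ _)⟩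
  push Not at hch
  -- a residue is highest
  obtain ⟨c₁, s, t, hK₁, hp₁⟩ : ∃ c s t, K c s t ∧ p2 M va h (w c) s t = mx := by
    simp only [A, Finset.mem_union, Finset.mem_image] at hmem
    rcases hmem with ⟨p, hp, he⟩ | ⟨p, hp, he⟩ | ⟨p, hp, he⟩
    · obtain ⟨c, hKc, hwc⟩ := hfin.mem_toFinset.1 hp
      exact (hch c _ _ hKc (by rw [hwc]; exact he)).elim
    · obtain ⟨c, hKc, hwc⟩ := hfin.mem_toFinset.1 hp
      exact (hpan c _ _ hKc (by rw [hwc]; exact he)).elim
    · obtain ⟨c, hKc, hwc⟩ := hfin.mem_toFinset.1 hp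
      exact ⟨c, _, _, hKc, by rw [hwc]; exact he⟩
  obtain ⟨hst, h0⟩ := K0 _ _ _ hK₁
  -- the lowest chamber
  let B : Finset ℝ := (F.filter fun p => p.2.1 = s ∧ p.2.2 = t ∧ p2 M va h p.1 s t = mx).image
    (fun p => h p.1)
  have hBmem : ∀ c, K c s t → p2 M va h (w c) s t = mx → h (w c) ∈ B := fun c h1 h2 => by
    simp only [B, Finset.mem_image, Finset.mem_filter]
    exact ⟨(w c, s, t), ⟨hF _ _ _ h1, rfl, rfl, h2⟩, rfl⟩
  have hBne : B.Nonempty := ⟨_, hBmem _ hK₁ hp₁⟩
  obtain ⟨c₀, hK₀, hp₀, hmin⟩ : ∃ c₀, K c₀ s t ∧ p2 M va h (w c₀) s t = mx ∧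
      ∀ c, K c s t → p2 M va h (w c) s t = mx → h (w c₀) ≤ h (w c) := by
    have h1 := B.min'_mem hBne
    simp only [B, Finset.mem_image, Finset.mem_filter] at h1
    obtain ⟨⟨w', s', t'⟩, ⟨h2, rfl, rfl, h3⟩, h4⟩ := h1
    obtain ⟨c₀, h5, h6⟩ := hfin.mem_toFinset.1 h2
    refine ⟨c₀, h5, by rw [h6]; exact h3, fun c h7 h8 => ?_⟩
    rw [h6]
    exact h4.trans_le (B.min'_le _ (hBmem _ h7 h8))
  have harm := exists_arm hH w adj Fix K hw K0 K1 K3 mx l1'
  have hcond : ∀ d x y, K d x y → p2 M va h (w d) x y = mx →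
      0 < va (w d) y + cos (π / M x y) * va (w d) x := by
    intro d x y hK hp
    obtain ⟨h1, h2⟩ := K0 _ _ _ hK
    refine p2_lt hH h1 h2 ?_
    rw [hp]
    exact l1' _ _ _ hK
  have harm' : ∀ d x y, K d x y → p2 M va h (w d) x y = mx → 0 < va (w d) x →
      ∃ n < M x y, Arm adj Fix x y n d ∧
        0 < cos ((n + 1) * (π / M x y)) * va (w d) x + cos (n * (π / M x y)) * va (w d) y := by
    intro d x y hK hp hx
    obtain ⟨h1, h2⟩ := K0 _ _ _ hK
    refine harm (M x y) d x y hK hp hx ?_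
    have e := th_mul (two_le h1 h2)
    have e1 : ((M x y : ℝ) + 1) * (π / M x y) = π / M x y + π := by
      rw [add_mul, e]
      ring
    rw [e1, e, cos_pi, cos_add_pi]
    have := hcond d x y hK hp
    linarith
  -- the case of one descent
  have hdesc : ∀ x y, K c₀ x y → p2 M va h (w c₀) x y = mx →
      (∀ c, K c x y → p2 M va h (w c) x y = mx → h (w c₀) ≤ h (w c)) →
      va (w c₀) x < 0 → False := by
    intro x y hK hp hmin hx
    obtain ⟨hxy, h0⟩ := K0 _ _ _ hK
    have hm := two_le hxy h0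
    have hsym : M y x = M x y := M.symmetric y x
    have c1 := hcond _ _ _ hK hp
    have hy : 0 < va (w c₀) y := by
      nlinarith [mul_nonneg (cos_th hm) (neg_nonneg.2 hx.le)]
    have c2 := hcond _ _ _ (K1 _ _ _ hK) (by rw [p2_comm hH]; exact hp)
    rw [hsym] at c2
    have hbd : ∀ d, K d x y → p2 M va h (w d) x y = mx → w d = w c₀ →
        ∃ n, Arm adj Fix y x n d ∧ 2 * (n + 1) < M x y := by
      intro d hKd hpd hwd
      obtain ⟨n, hn, h1, h2⟩ := harm' d y x (K1 _ _ _ hKd) (by rw [p2_comm hH]; exact hpd)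
        (by rw [hwd]; exact hy)
      rw [hsym] at hn h2
      rw [hwd] at h2
      refine ⟨n, h1, trigB hm hn (a := - va (w c₀) x) (b := va (w c₀) y) (by linarith) hy
        (by linarith) (by linarith)⟩
    obtain ⟨n, hn, hn2⟩ := hbd c₀ hK hp rfl
    rcases K3 _ _ _ hK with hF | ⟨d, hd, hKd⟩
    · have := FF x y 0 n c₀ hxy h0 hF hn
      omega
    · rcases hw _ _ _ hd with h1 | ⟨h1, -⟩
      · have h2 := hmin d hKd (by rw [h1, p2_mul hH hxy h0, hp])
        rw [h1, hH.hst] at h2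
        linarith
      · obtain ⟨n', hn', hn2'⟩ := hbd d hKd (by rw [h1, hp]) h1
        have := FF x y (n' + 1) n c₀ hxy h0 ⟨d, hd, hn'⟩ hn
        omega
  rcases lt_or_gt_of_ne (hH.ne (w c₀) s) with hs | hs
  · exact hdesc s t hK₀ hp₀ hmin hs
  · rcases lt_or_gt_of_ne (hH.ne (w c₀) t) with ht | ht
    · refine hdesc t s (K1 _ _ _ hK₀) (by rw [p2_comm hH]; exact hp₀) (fun c h1 h2 => ?_) ht
      exact hmin c (K1 _ _ _ h1) (by rw [p2_comm hH]; exact h2)
    · obtain ⟨n, hn, h1, h2⟩ := harm' c₀ s t hK₀ hp₀ hs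
      obtain ⟨n', hn', h1', h2'⟩ := harm' c₀ t s (K1 _ _ _ hK₀) (by rw [p2_comm hH]; exact hp₀) ht
      have hsym : M t s = M s t := M.symmetric t s
      rw [hsym] at hn' h2'
      have h3 := trigA (two_le hst h0) hn hn' ht hs h2 h2'
      have h4 := FF s t n n' c₀ hst h0 h1 h1'
      omega

end main

end Pool.Agent.Helper3.FE
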